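import Pool.Agent.Q286.XG.Stm
import Pool.Agent.Q96.EX.UZc

set_option autoImplicit false

/-!
# Project EXG (helper286), job UZC: the collapse of the form for all degrees `n ≥ c a²`, zero data with a central zero
(port of `Q96.EX.uZc`, helper96)
-/

open Polynomial Filter Topology
open Pool.Agent.Q240 Pool.Agent.Q240.CD
open Pool.Agent.Q286.XG
open Pool.Agent.Q240.CG (m0 mg zg)
open Pool.Agent.Q240.EX (Lc Mn S_MainU S_Fam2Zc Fam2)
open Pool.Agent.Q96.EX (lc_tendsto sp_bdd norm_two_sq Lp_nonneg)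

namespace Pool.Agent.Q164.XG

section

variable [D : Y23.G.ZD]

/-- the masses at the squares of the ordinates -/
noncomputable def Mgz (γ : ℕ → ℝ) (p : ℝ × ℕ) : ℕ → ℝ := Mn (fun j => γ j ^ 2) (fun j => (mg (γ j : ℂ) : ℝ)) p

lemma LG_Mgz {γ : ℕ → ℝ} (h : CG.ENG γ) {a : ℝ} {n : ℕ} (ha : 0 < a) (P : ℝ[X]) (hP : P.natDegree ≤ 2 * n) :
    CG.LG a n (P * P) = (m0 : ℝ) * P.eval 0 ^ 2 + Lp (fun j => γ j ^ 2) (Mgz γ (a, n)) P :=
  CG.LG_Lp0 CG.jb.sum h (fun _ => n) ha P hP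

lemma defG [EC : Y23.G.ZC] (hRH : RHG) {γ : ℕ → ℝ} (h : CG.ENG γ) {a : ℝ} {n : ℕ} (ha : 0 < a) {q : ℝ[X]} (hq : q.natDegree ≤ n)
    (hq0 : q ≠ 0) : 0 < Lam (fun j => γ j ^ 2) (Mgz γ (a, n)) (q * q) := by
  have hγ := h.gpos
  have hm1' : ∀ j, (1 : ℝ) ≤ (mg (γ j : ℂ) : ℝ) := fun j => by exact_mod_cast h.m1 j
  set g : ℕ → ℝ := fun j => γ j ^ 2 with hg
  have hsqrt : ∀ j, Real.sqrt (g j) = γ j := fun j => Real.sqrt_sq (hγ j).le
  change 0 < Lam g (fun j => 2 * (mg (γ j : ℂ) : ℝ) * Sr a n (Real.sqrt (g j)) ^ 2) (q * q)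
  by_contra hcon
  push Not at hcon
  have hd : (q.comp (X ^ 2)).natDegree ≤ 2 * n := by
    rw [natDegree_comp, natDegree_X_pow]
    omega
  obtain ⟨f, hf, h1, -, h2⟩ := CG.real_elemG a_repInv CG.jb.form ha (q.comp (X ^ 2)) hd
  set F : ℂ → ℝ := fun z => (aeval z (q.comp (X ^ 2) * q.comp (X ^ 2)) * Sp a n z ^ 2).re with hF
  have ht := h.tot F (CG.jb.sum.2.2.2 a n _ ha (natDegree_mul_self_le hd))
  have hFr : ∀ x : ℝ, F x = (q.eval (x ^ 2)) ^ 2 * Sr a n x ^ 2 := by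
    intro x
    simp only [hF]
    rw [aeval_real, (a_spB a n).2.2.2.1, ← Complex.ofReal_pow, ← Complex.ofReal_mul, Complex.ofReal_re]
    simp only [eval_mul, eval_comp, eval_pow, eval_X]
    ring
  have hFn : ∀ j, F (-(γ j : ℂ)) = F (γ j) := by
    intro j
    have e2 : (-(γ j : ℂ)) = ((-γ j : ℝ) : ℂ) := by push_cast; rfl
    have e3 : Sr a n (-γ j) ^ 2 = Sr a n (γ j) ^ 2 := by
      have h3 := (a_spB a n).2.2.2.2.1 (γ j : ℂ)
      rw [e2, (a_spB a n).2.2.2.1, (a_spB a n).2.2.2.1] at h3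
      have h4 : Sr a n (-γ j) = Sr a n (γ j) := by exact_mod_cast h3
      rw [h4]
    rw [e2, hFr, hFr, neg_sq, e3]
  have hterm : (fun j => (mg (γ j : ℂ) : ℝ) * (F (γ j) + F (-(γ j : ℂ)))) = fun j =>
      2 * (mg (γ j : ℂ) : ℝ) * Sr a n (Real.sqrt (g j)) ^ 2 * (q * q).eval (g j) := by
    funext j
    rw [hFn, hFr, hsqrt, eval_mul]
    simp only [hg]
    ring
  rw [hterm] at ht
  have hnn : ∀ j, 0 ≤ 2 * (mg (γ j : ℂ) : ℝ) * Sr a n (Real.sqrt (g j)) ^ 2 * (q * q).eval (g j) := by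
    intro j
    rw [eval_mul]
    exact mul_nonneg (by positivity) (mul_self_nonneg _)
  have h0 : ∀ j, 2 * (mg (γ j : ℂ) : ℝ) * Sr a n (Real.sqrt (g j)) ^ 2 * (q * q).eval (g j) = 0 := by
    have h3 : HasSum (fun j => 2 * (mg (γ j : ℂ) : ℝ) * Sr a n (Real.sqrt (g j)) ^ 2 * (q * q).eval (g j)) 0 := by
      have h4 := ht.summable.hasSum
      have h5 : ∑' j, 2 * (mg (γ j : ℂ) : ℝ) * Sr a n (Real.sqrt (g j)) ^ 2 * (q * q).eval (g j) = 0 :=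
        le_antisymm hcon (tsum_nonneg hnn)
      rwa [h5] at h4
    exact fun j => congrFun ((hasSum_zero_iff_of_nonneg hnn).1 h3) j
  have hz : ∀ j, q.eval (γ j ^ 2) * Sr a n (γ j) = 0 := by
    intro j
    have h3 := h0 j
    rw [hsqrt, eval_mul] at h3
    have h4 : 0 < (mg (γ j : ℂ) : ℝ) := by linarith [hm1' j]
    have h5 : (q.eval (γ j ^ 2) * Sr a n (γ j)) ^ 2 = 0 := by
      have h6 : 2 * (mg (γ j : ℂ) : ℝ) * (q.eval (γ j ^ 2) * Sr a n (γ j)) ^ 2 = 0 := by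
        rw [← h3]
        ring
      exact (mul_eq_zero.1 h6).resolve_left (by positivity)
    exact pow_eq_zero_iff two_ne_zero |>.1 h5
  have hTz : ∀ w, Y23.TT f w = 0 := by
    refine CG.unique_set CG.jb.pos hRH ha hf fun s hs hs2 => ?_
    have e : (1 / 2 + Complex.I * (-Complex.I * (s - 1 / 2)) : ℂ) = s := by
      rw [← mul_assoc, mul_neg, Complex.I_mul_I]
      ring
    have e2 : Complex.I * (-Complex.I * (s - 1 / 2)) = s - 1 / 2 := by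
      rw [← mul_assoc, mul_neg, Complex.I_mul_I]
      ring
    have h3 := (h.zer (-Complex.I * (s - 1 / 2))).1 (by rw [e]; exact hs)
    have h4 : ∀ j, Y23.TT f (Complex.I * (γ j : ℂ)) = 0 ∧ Y23.TT f (Complex.I * -(γ j : ℂ)) = 0 := by
      intro j
      have h5 := hz j
      have e3 : (-(γ j : ℂ)) = ((-γ j : ℝ) : ℂ) := by push_cast; rfl
      constructor
      · rw [h2, aeval_real, (a_spB a n).2.2.2.1, ← Complex.ofReal_mul]
        simp only [eval_comp, eval_pow, eval_X]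
        rw [h5, Complex.ofReal_zero]
      · rw [h2, (a_spB a n).2.2.2.2.1, e3, aeval_real, (a_spB a n).2.2.2.1, ← Complex.ofReal_mul]
        simp only [eval_comp, eval_pow, eval_X, neg_sq]
        rw [h5, Complex.ofReal_zero]
    rcases h3 with ⟨h3, -⟩ | ⟨j, h3 | h3⟩
    · exfalso
      rw [h3] at e2
      apply hs2
      rw [mul_zero] at e2
      linear_combination -e2
    · rw [← e2, h3]; exact (h4 j).1
    · rw [← e2, h3]; exact (h4 j).2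
  exact hq0 (CG.even_zero ha hTz h2)

end

theorem uZcG : S_UZcG := by
  intro hMain hFam D EC hSD hRH γ hE c hc R ε hε
  have hγ := hE.gpos
  obtain ⟨g, hg⟩ : ∃ g : ℕ → ℝ, g = fun j => γ j ^ 2 := ⟨_, rfl⟩
  obtain ⟨M, hM⟩ : ∃ M : ℝ × ℕ → ℕ → ℝ, M = Mgz γ := ⟨_, rfl⟩
  have hgm : StrictMono g := by
    rw [hg]
    exact fun i j hij => pow_lt_pow_left₀ (hE.mono hij) (hγ i).le two_ne_zero
  have hg0 : 0 < g 0 := by rw [hg]; exact pow_pos (hγ 0) 2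
  have hgn : ∀ j, 0 ≤ g j := by rw [hg]; exact fun j => sq_nonneg _
  have hm1 : ∀ j, (1 : ℝ) ≤ (mg (γ j : ℂ) : ℝ) := fun j => by exact_mod_cast hE.m1 j
  obtain ⟨hPM, hF2⟩ : (∀ (a : ℝ) (n : ℕ), 0 < a → PM g (M (a, n)) n) ∧ Fam2 (Lc c) g (fun p => p.2) M := by
    rw [hM, hg]
    exact hFam c hc (fun j => γ j ^ 2) (fun j => (mg (γ j : ℂ) : ℝ)) (hg ▸ hgm) (pow_pos (hγ 0) 2) hm1 hE.sum
      (fun a n ha q hq hq0 => defG hRH hE ha hq hq0)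
  have hLG : ∀ {a : ℝ} {n : ℕ} (_ : 0 < a) (P : ℝ[X]) (_ : P.natDegree ≤ 2 * n),
      CG.LG a n (P * P) = (m0 : ℝ) * P.eval 0 ^ 2 + Lp g (M (a, n)) P := by
    intro a n ha P hP
    rw [hM, hg]
    exact LG_Mgz hE ha P hP
  obtain ⟨q0, hq0⟩ : ∃ q0 : ℝ × ℕ → ℝ[X], ∀ p : ℝ × ℕ, 0 < p.1 → Ex g (M p) p.2 0 (q0 p) := by
    classical
    refine ⟨fun p => if h : 0 < p.1 then (a_ext g (M p) p.2 (hPM p.1 p.2 h) 0).choose else 0, fun p hp => ?_⟩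
    simp only [dif_pos hp]
    exact (a_ext g (M p) p.2 (hPM p.1 p.2 hp) 0).choose_spec
  have hlp : ∀ᶠ p : ℝ × ℕ in Lc c, 0 < p.1 := (lc_tendsto c).eventually (eventually_gt_atTop 0)
  have hexE : ∀ᶠ p in Lc c, Ex g (M p) p.2 0 (q0 p) := hlp.mono fun p hp => hq0 p hp
  obtain ⟨E, hE0, hEb⟩ := sp_bdd hc R
  have hMu := hMain (Lc c) g (fun p => p.2) M hF2 q0 hexE R (ε / (2 * E)) (by positivity)
  filter_upwards [hMu, hEb, hlp] with p h1 h2 ha δ hδ f hf z hz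
  obtain ⟨P, hP, h3⟩ := a_rep p.1 p.2 f ha hf
  obtain ⟨A, B, hA, hB, h4⟩ := split_re _ P hP
  have h5 : ∀ z : ℂ, Y23.TT f (Complex.I * z) = (aeval z A + Complex.I * aeval z B) * Sp p.1 p.2 z :=
    fun z => by rw [h3, h4]
  have hMn : ∀ j, 0 ≤ M p j := (hPM p.1 p.2 ha).nonneg
  have hLA : 0 ≤ Lp g (M p) A := Lp_nonneg hMn A
  have hLB : 0 ≤ Lp g (M p) B := Lp_nonneg hMn B
  have hv : ∀ W : ℝ[X], aeval (0 : ℂ) W = ((W.eval 0 : ℝ) : ℂ) := by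
    intro W
    have := aeval_real W 0
    rwa [Complex.ofReal_zero] at this
  have hT0 : Y23.TT f 0 = ((A.eval 0 : ℝ) : ℂ) + Complex.I * ((B.eval 0 : ℝ) : ℂ) := by
    have h6 := h5 0
    rw [mul_zero, (a_spB p.1 p.2).2.2.1, mul_one, hv, hv] at h6
    exact h6
  have hTn : ‖Y23.TT f 0‖ ^ 2 = A.eval 0 ^ 2 + B.eval 0 ^ 2 := by
    rw [hT0, ← Complex.normSq_eq_norm_sq, Complex.normSq_apply]
    simp only [Complex.add_re, Complex.ofReal_re, Complex.mul_re, Complex.I_re, Complex.I_im, Complex.ofReal_im, Complex.add_im,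
      Complex.mul_im]
    ring
  have hQ : Y23.G.QQ f - (m0 : ℝ) * ‖Y23.TT f 0‖ ^ 2 = Lp g (M p) A + Lp g (M p) B := by
    rw [(CG.jb.form p.1 p.2 f A B ha hf hA hB h5).1, hLG ha A hA, hLG ha B hB, hTn]
    ring
  have hQ0 : 0 ≤ Y23.G.QQ f - (m0 : ℝ) * ‖Y23.TT f 0‖ ^ 2 := by rw [hQ]; exact add_nonneg hLA hLB
  have hδ0 : δ ≤ Lam g (M p) (q0 p * q0 p) := by
    obtain ⟨hd, he, -⟩ := hq0 p ha
    have hd2 : ((q0 p).comp (X ^ 2)).natDegree ≤ 2 * p.2 := by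
      rw [natDegree_comp, natDegree_X_pow]
      omega
    obtain ⟨h, hh, k1, -, k2⟩ := CG.real_elemG a_repInv CG.jb.form ha ((q0 p).comp (X ^ 2)) hd2
    rw [hLG ha _ hd2, Lp_even _ _ hgn, eval_comp, eval_pow, eval_X, zero_pow two_ne_zero, he, one_pow, mul_one] at k1
    have k3 := k2 0
    rw [mul_zero, (a_spB p.1 p.2).2.2.1, mul_one, hv, eval_comp, eval_pow, eval_X, zero_pow two_ne_zero, he,
      Complex.ofReal_one] at k3
    have k4 := hδ h hh k3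
    rw [k1] at k4
    have k5 : δ + (m0 : ℝ) ≤ (m0 : ℝ) + Lam g (M p) (q0 p * q0 p) := k4
    linarith
  rcases le_or_gt δ 0 with hneg | hpos
  · exact (mul_nonpos_of_nonpos_of_nonneg hneg (sq_nonneg _)).trans (mul_nonneg hε.le hQ0)
  have dA : δ * ‖aeval z A - ((A.eval 0 : ℝ) : ℂ) * GC g (z ^ 2)‖ ^ 2 ≤ ε / (2 * E) * Lp g (M p) A := by
    refine (mul_le_mul_of_nonneg_right hδ0 (sq_nonneg _)).trans ?_
    rw [mul_comm]
    exact h1 A hA z hz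
  have dB : δ * ‖aeval z B - ((B.eval 0 : ℝ) : ℂ) * GC g (z ^ 2)‖ ^ 2 ≤ ε / (2 * E) * Lp g (M p) B := by
    refine (mul_le_mul_of_nonneg_right hδ0 (sq_nonneg _)).trans ?_
    rw [mul_comm]
    exact h1 B hB z hz
  rw [← hg]
  obtain ⟨u, hu⟩ : ∃ u : ℂ, u = aeval z A - ((A.eval 0 : ℝ) : ℂ) * GC g (z ^ 2) := ⟨_, rfl⟩
  obtain ⟨v, hv'⟩ : ∃ v : ℂ, v = aeval z B - ((B.eval 0 : ℝ) : ℂ) * GC g (z ^ 2) := ⟨_, rfl⟩
  obtain ⟨S, hS'⟩ : ∃ S : ℂ, S = Sp p.1 p.2 z := ⟨_, rfl⟩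
  have hid : Y23.TT f (Complex.I * z) - Y23.TT f 0 * (GC g (z ^ 2) * Sp p.1 p.2 z) = S * u + (Complex.I * S) * v := by
    rw [h5 z, hu, hv', hT0, hS']
    ring
  have hS1 : ‖S‖ ^ 2 ≤ E := by rw [hS']; exact h2 z hz
  have b1 : ‖S * u‖ ^ 2 ≤ E * ‖u‖ ^ 2 := by
    rw [norm_mul, mul_pow]
    exact mul_le_mul_of_nonneg_right hS1 (sq_nonneg _)
  have b2 : ‖(Complex.I * S) * v‖ ^ 2 ≤ E * ‖v‖ ^ 2 := by
    rw [norm_mul, norm_mul, Complex.norm_I, one_mul, mul_pow]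
    exact mul_le_mul_of_nonneg_right hS1 (sq_nonneg _)
  rw [← hu] at dA
  rw [← hv'] at dB
  rw [hid]
  have k3 := norm_two_sq (S * u) ((Complex.I * S) * v)
  have k4 : 2 * E * (ε / (2 * E)) = ε := by field_simp
  calc δ * ‖S * u + (Complex.I * S) * v‖ ^ 2
      ≤ δ * (2 * (E * ‖u‖ ^ 2 + E * ‖v‖ ^ 2)) := by
        refine mul_le_mul_of_nonneg_left (k3.trans ?_) hpos.le
        linarith
    _ = 2 * E * (δ * ‖u‖ ^ 2 + δ * ‖v‖ ^ 2) := by ring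
    _ ≤ 2 * E * (ε / (2 * E) * Lp g (M p) A + ε / (2 * E) * Lp g (M p) B) := by
        refine mul_le_mul_of_nonneg_left (add_le_add dA dB) (by positivity)
    _ = (2 * E * (ε / (2 * E))) * (Lp g (M p) A + Lp g (M p) B) := by ring
    _ = ε * (Y23.G.QQ f - (m0 : ℝ) * ‖Y23.TT f 0‖ ^ 2) := by rw [k4, hQ]

end Pool.Agent.Q164.XG
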